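import Mathlib

/-!
# Maxima of valuations on finite sets and elementary symmetric functions
-/

set_option autoImplicit false

namespace Pool.Agent.Helper46.AQ

open Finset Pointwise

section mx

variable {K Γ : Type} [Field K] [LinearOrderedCommGroupWithZero Γ]

/-- The maximum of a valuation on a finite set. -/
def mx (v : Valuation K Γ) (Ψ : Finset K) : Γ := Ψ.sup v

variable {v : Valuation K Γ} {Ψ Ψ' : Finset K}

lemma le_mx {a : K} (h : a ∈ Ψ) : v a ≤ mx v Ψ := Finset.le_sup (f := v) h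

lemma mx_le {c : Γ} (h : ∀ a ∈ Ψ, v a ≤ c) : mx v Ψ ≤ c := Finset.sup_le h

lemma exists_mx (h : Ψ.Nonempty) : ∃ a ∈ Ψ, mx v Ψ = v a :=
  Finset.exists_mem_eq_sup Ψ h v

lemma mx_ne_zero (h : Ψ.Nonempty) (h0 : ∀ a ∈ Ψ, a ≠ 0) : mx v Ψ ≠ 0 := by
  obtain ⟨a, ha, h1⟩ := exists_mx (v := v) h
  rw [h1, Valuation.ne_zero_iff]
  exact h0 a ha

lemma mx_mul [DecidableEq K] (h : Ψ.Nonempty) (h' : Ψ'.Nonempty) :
    mx v (Ψ * Ψ') = mx v Ψ * mx v Ψ' := by
  apply le_antisymm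
  · refine mx_le fun a ha => ?_
    obtain ⟨x, hx, y, hy, rfl⟩ := Finset.mem_mul.1 ha
    rw [map_mul]
    exact mul_le_mul' (le_mx hx) (le_mx hy)
  · obtain ⟨x, hx, h1⟩ := exists_mx (v := v) h
    obtain ⟨y, hy, h2⟩ := exists_mx (v := v) h'
    rw [h1, h2, ← map_mul]
    exact le_mx (Finset.mul_mem_mul hx hy)

lemma mx_union [DecidableEq K] : mx v (Ψ ∪ Ψ') = max (mx v Ψ) (mx v Ψ') :=
  Finset.sup_union

end mx

section es

variable {K : Type} [Field K]

/-- The elementary symmetric function of degree `l` of a finite set. -/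
def es (Ψ : Finset K) (l : ℕ) : K := ∑ I ∈ Ψ.powersetCard l, ∏ a ∈ I, a

variable {Γ : Type} [LinearOrderedCommGroupWithZero Γ] {v : Valuation K Γ} {Ψ : Finset K}

lemma prod_le_mx {I : Finset K} (hI : I ⊆ Ψ) : v (∏ a ∈ I, a) ≤ mx v Ψ ^ I.card := by
  rw [map_prod, ← Finset.prod_const]
  exact Finset.prod_le_prod' fun a ha => le_mx (hI ha)

lemma es_le (l : ℕ) : v (es Ψ l) ≤ mx v Ψ ^ l := by
  unfold es
  refine v.map_sum_le fun I hI => ?_
  obtain ⟨h1, h2⟩ := Finset.mem_powersetCard.1 hI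
  rw [← h2]
  exact prod_le_mx h1

lemma es_eq (h : Ψ.Nonempty) (h0 : ∀ a ∈ Ψ, a ≠ 0) :
    ∃ l, 1 ≤ l ∧ l ≤ Ψ.card ∧ v (es Ψ l) = mx v Ψ ^ l := by
  classical
  set I₀ := Ψ.filter fun a => v a = mx v Ψ with hI₀
  have hne : I₀.Nonempty := by
    obtain ⟨a, ha, h1⟩ := exists_mx (v := v) h
    exact ⟨a, Finset.mem_filter.2 ⟨ha, h1.symm⟩⟩
  have hsub : I₀ ⊆ Ψ := Finset.filter_subset _ _
  refine ⟨I₀.card, hne.card_pos, Finset.card_le_card hsub, ?_⟩
  have hv0 : v (∏ a ∈ I₀, a) = mx v Ψ ^ I₀.card := by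
    rw [map_prod, ← Finset.prod_const]
    exact Finset.prod_congr rfl fun a ha => (Finset.mem_filter.1 ha).2
  have hm0 : mx v Ψ ≠ 0 := mx_ne_zero h h0
  unfold es
  rw [← hv0]
  refine v.map_sum_eq_of_lt (j := I₀) (Finset.mem_powersetCard.2 ⟨hsub, rfl⟩) ?_
  intro I hI
  rw [Finset.mem_sdiff, Finset.mem_powersetCard, Finset.mem_singleton] at hI
  obtain ⟨⟨hIs, hIc⟩, hIne⟩ := hI
  -- there is a non-maximal element
  obtain ⟨a, haI, haI₀⟩ : ∃ a ∈ I, a ∉ I₀ := by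
    by_contra hcon
    push Not at hcon
    exact hIne (Finset.eq_of_subset_of_card_le hcon hIc.ge)
  have hlt : v a < mx v Ψ := by
    refine lt_of_le_of_ne (le_mx (hIs haI)) fun h1 => ?_
    exact haI₀ (Finset.mem_filter.2 ⟨hIs haI, h1⟩)
  rw [hv0, ← Finset.mul_prod_erase I (fun a => a) haI, map_mul]
  have h2 : I₀.card = (I.erase a).card + 1 := by
    rw [Finset.card_erase_of_mem haI, hIc]
    have := hne.card_pos
    omega
  rw [h2, pow_succ']
  have h3 : v (∏ x ∈ I.erase a, x) ≤ mx v Ψ ^ (I.erase a).card :=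
    prod_le_mx ((Finset.erase_subset _ _).trans hIs)
  have h4 : (0 : Γ) < mx v Ψ ^ (I.erase a).card := pow_pos (zero_lt_iff.2 hm0) _
  calc v a * v (∏ x ∈ I.erase a, x) ≤ v a * mx v Ψ ^ (I.erase a).card := by gcongr
    _ < mx v Ψ * mx v Ψ ^ (I.erase a).card := by
      exact mul_lt_mul_of_pos_right hlt h4

end es

section fam

variable {k K : Type} [Field k] [Field K] [Algebra k K] {G : Type} [Group G]

/-- A finite nonempty set of nonzero elements of `B` which is stable under the group. -/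
structure Fam (ρ : G →* (K ≃ₐ[k] K)) (B : Subalgebra k K) (Ψ : Finset K) : Prop where
  ne : Ψ.Nonempty
  mem : ∀ a ∈ Ψ, a ∈ B
  n0 : ∀ a ∈ Ψ, a ≠ 0
  st : ∀ g, ∀ a ∈ Ψ, ρ g a ∈ Ψ

variable {ρ : G →* (K ≃ₐ[k] K)} {B : Subalgebra k K} {Ψ Ψ' : Finset K}

lemma Fam.mul [DecidableEq K] (h : Fam ρ B Ψ) (h' : Fam ρ B Ψ') : Fam ρ B (Ψ * Ψ') where
  ne := h.ne.mul h'.ne
  mem := by
    intro a ha
    obtain ⟨x, hx, y, hy, rfl⟩ := Finset.mem_mul.1 ha
    exact B.mul_mem (h.mem x hx) (h'.mem y hy)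
  n0 := by
    intro a ha
    obtain ⟨x, hx, y, hy, rfl⟩ := Finset.mem_mul.1 ha
    exact mul_ne_zero (h.n0 x hx) (h'.n0 y hy)
  st := by
    intro g a ha
    obtain ⟨x, hx, y, hy, rfl⟩ := Finset.mem_mul.1 ha
    rw [map_mul]
    exact Finset.mul_mem_mul (h.st g x hx) (h'.st g y hy)

lemma Fam.union [DecidableEq K] (h : Fam ρ B Ψ) (h' : Fam ρ B Ψ') : Fam ρ B (Ψ ∪ Ψ') where
  ne := h.ne.mono Finset.subset_union_left
  mem := fun a ha => (Finset.mem_union.1 ha).elim (h.mem a) (h'.mem a)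
  n0 := fun a ha => (Finset.mem_union.1 ha).elim (h.n0 a) (h'.n0 a)
  st := fun g a ha => Finset.mem_union.2 ((Finset.mem_union.1 ha).imp (h.st g a) (h'.st g a))

lemma Fam.image_eq [DecidableEq K] (h : Fam ρ B Ψ) (g : G) : Ψ.image (ρ g) = Ψ := by
  refine Finset.eq_of_subset_of_card_le ?_ ?_
  · intro x hx
    obtain ⟨a, ha, rfl⟩ := Finset.mem_image.1 hx
    exact h.st g a ha
  · rw [Finset.card_image_of_injective _ (ρ g).injective]

lemma Fam.es_mem (h : Fam ρ B Ψ) (l : ℕ) : es Ψ l ∈ B := by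
  refine B.sum_mem fun I hI => B.prod_mem fun a ha => h.mem a ?_
  exact (Finset.mem_powersetCard.1 hI).1 ha

lemma Fam.es_inv (h : Fam ρ B Ψ) (l : ℕ) (g : G) : ρ g (es Ψ l) = es Ψ l := by
  classical
  unfold es
  rw [map_sum]
  refine Finset.sum_nbij' (fun I => I.image (ρ g)) (fun I => I.image (ρ g⁻¹)) ?_ ?_ ?_ ?_ ?_
  · intro I hI
    obtain ⟨h1, h2⟩ := Finset.mem_powersetCard.1 hI
    refine Finset.mem_powersetCard.2 ⟨?_, ?_⟩
    · intro x hx
      obtain ⟨a, ha, rfl⟩ := Finset.mem_image.1 hx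
      exact h.st g a (h1 ha)
    · rw [Finset.card_image_of_injective _ (ρ g).injective, h2]
  · intro I hI
    obtain ⟨h1, h2⟩ := Finset.mem_powersetCard.1 hI
    refine Finset.mem_powersetCard.2 ⟨?_, ?_⟩
    · intro x hx
      obtain ⟨a, ha, rfl⟩ := Finset.mem_image.1 hx
      exact h.st g⁻¹ a (h1 ha)
    · rw [Finset.card_image_of_injective _ (ρ g⁻¹).injective, h2]
  · intro I _
    rw [Finset.image_image]
    have : (ρ g⁻¹ : K → K) ∘ (ρ g) = id := by
      funext x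
      change ρ g⁻¹ (ρ g x) = x
      rw [← AlgEquiv.mul_apply, ← map_mul, inv_mul_cancel, map_one, AlgEquiv.one_apply]
    rw [this, Finset.image_id]
  · intro I _
    rw [Finset.image_image]
    have : (ρ g : K → K) ∘ (ρ g⁻¹) = id := by
      funext x
      change ρ g (ρ g⁻¹ x) = x
      rw [← AlgEquiv.mul_apply, ← map_mul, mul_inv_cancel, map_one, AlgEquiv.one_apply]
    rw [this, Finset.image_id]
  · intro I _
    rw [map_prod, Finset.prod_image fun x _ y _ hxy => (ρ g).injective hxy]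

end fam

end Pool.Agent.Helper46.AQ
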